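import Pool.Agent.Lib.helper19.Precol

set_option autoImplicit false

namespace Pool.Agent.Results.MP_0be93d_co.Iff

open Cardinal Set Matrix Pool.Agent.Lib.helper19.Precol

/-- the unit sphere in `ℝ³` -/
abbrev S := {x : Fin 3 → ℝ // x ⬝ᵥ x = 1}

abbrev Mat := Matrix (Fin 3) (Fin 3) ℝ

/-- `c` is `Γ`-distinguishing -/
def Dist (Γ : Set Mat) {k : ℕ} (c : S → Fin k) : Prop :=
  ∀ A ∈ Γ, (∀ x y : S, A *ᵥ x.1 = y.1 → c y = c x) → A = 1

/-- the distinguishing number -/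
noncomputable def D (Γ : Set Mat) : ℕ := sInf {k | ∃ c : S → Fin k, Dist Γ c}

def TrivStab (Γ : Set Mat) (W : Set S) : Prop := ∀ A ∈ Γ, (∀ x ∈ W, A *ᵥ x.1 = x.1) → A = 1

/-- the precolouring extension property -/
def P (Γ : Set Mat) (W : Set S) : Prop :=
  ∀ c : (Wᶜ : Set S) → Fin (D Γ), ∃ c' : S → Fin (D Γ), (∀ x : (Wᶜ : Set S), c' x = c x) ∧ Dist Γ c'

lemma sph {A : Mat} (hA : A ∈ orthogonalGroup (Fin 3) ℝ) (x : S) : (A *ᵥ x.1) ⬝ᵥ (A *ᵥ x.1) = 1 := by
  rw [dotProduct_mulVec, vecMul_mulVec, (mem_orthogonalGroup_iff' _ _).1 hA, vecMul_one, x.2]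

lemma c3 : (𝔠 : Cardinal.{0}) ^ (3 : Cardinal.{0}) = 𝔠 := by
  have := power_nat_eq (n := 3) aleph0_le_continuum.{0} (by norm_num)
  rwa [← power_natCast] at this

lemma card_S : #S = 𝔠 := by
  refine le_antisymm ((mk_subtype_le _).trans (by simp [mk_real, c3])) ?_
  rw [← mk_Icc_real (show (0 : ℝ) < 1 by norm_num)]
  refine mk_le_of_injective (f := fun t => ⟨![t.1, √(1 - t.1 ^ 2), 0], ?_⟩) fun s t h =>
    Subtype.ext (congrFun (congrArg Subtype.val h) 0)
  have : 0 ≤ 1 - t.1 * t.1 := by nlinarith [t.2.1, t.2.2]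
  simp [dotProduct, Fin.sum_univ_three, Real.mul_self_sqrt this, sq]

lemma holds {Γ : Set Mat} (hΓ : ∀ A ∈ Γ, A ∈ orthogonalGroup (Fin 3) ℝ) {W : Set S}
    (hW : TrivStab Γ W) (h : 𝔠 < 2 ^ #W) {k : ℕ} (c : S → Fin (k + 2)) :
    ∃ c' : S → Fin (k + 2), (∀ x ∉ W, c' x = c x) ∧ Dist Γ c' := by
  classical
  have hκ : ℵ₀ ≤ #W := by
    by_contra hlt
    exact h.not_ge ((power_le_power_left two_ne_zero (not_le.1 hlt).le).trans two_power_aleph0.le)
  let a : Γ → S → S := fun A x => ⟨A.1 *ᵥ x.1, sph (hΓ _ A.2) x⟩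
  have ainj : ∀ A, Function.Injective (a A) := fun A x y e => Subtype.ext
    (mulVec_injective_iff_isUnit.2 ((isUnit_iff_isUnit_det _).2
      (UnitaryGroup.det_isUnit ⟨_, hΓ _ A.2⟩)) (congrArg Subtype.val e))
  have dt : ∀ A : Γ, A.1.det = 1 ∨ A.1.det = -1 := fun A => mul_self_eq_one_iff.1 (by
    have := congrArg det ((mem_orthogonalGroup_iff _ _).1 (hΓ _ A.2))
    rwa [det_mul, det_transpose, det_one] at this)
  let G := {A : Γ // A.1 ≠ 1 ∧ {w ∈ W | a A w ∈ W}.Infinite}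
  have hG : #G ≤ #W := by
    choose x x1 y y1 hxy using fun A : G => two A.2.2
    refine (mk_le_of_injective (f := fun A : G => ((⟨x A, (x1 A).1⟩, ⟨y A, (y1 A).1⟩,
      ⟨_, (x1 A).2⟩, ⟨_, (y1 A).2⟩, decide (A.1.1.det = 1)) : W × W × W × W × Bool))
      fun A B e => ?_).trans ?_
    · simp only [Prod.mk.injEq, Subtype.mk.injEq, decide_eq_decide, a] at e
      obtain ⟨e1, e2, e3, e4, e5⟩ := e
      refine Subtype.ext (Subtype.ext (det3 (hΓ _ A.1.2) (hΓ _ B.1.2) (hxy A)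
        (by rw [e3, e1]) (by rw [e4, e2]) ?_))
      rcases dt A.1 with h | h <;> rcases dt B.1 with h' | h' <;> simp_all
    · simp only [mk_prod, lift_id, mk_bool, lift_ofNat, lift_uzero]
      rw [Cardinal.mul_eq_left (b := 2) hκ ((natCast_lt_aleph0 (n := 2)).le.trans hκ) two_ne_zero]
      simp [mul_eq_self hκ]
  obtain ⟨w, w1, w2⟩ := pick (I := G ⊕ W) (Sum.elim (fun A => a A.1) fun _ => id)
    (by rintro (A | _); exacts [ainj _, Function.injective_id])
    (Sum.elim (fun A => {w ∈ W | a A.1 w ≠ w}) fun _ => W) hκ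
    (by simpa using (add_le_add_left hG _).trans (add_eq_self hκ).le) (by
      rintro (A | x)
      · by_contra hn
        exact A.2.1 (hW _ A.1.2 fun x hx => congrArg Subtype.val
          (by_contra fun h => hn ⟨x, hx, h⟩ : a A.1 x = x))
      · exact ⟨_, x.2⟩) (by
      rintro (A | x) hA (B | y) hB
      any_goals simp at hA
      any_goals simp at hB
      obtain ⟨x, x1, y, y1, hxy⟩ := two (T := {w | a A.1 w = w ∧ a B.1 w = w}) fun hf =>
        ((mk_le_mk_of_subset (show W ⊆ {w | a A.1 w = w ∧ a B.1 w = w} ∪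
          ({w ∈ W | ¬ a A.1 w = w} ∪ {w ∈ W | ¬ a B.1 w = w}) from fun w hw => by
            simp only [mem_union, mem_ofPred_eq]; tauto)).trans_lt ((mk_union_le _ _).trans_lt
          (add_lt_of_lt hκ (hf.lt_aleph0.trans_le hκ)
            ((mk_union_le _ _).trans_lt (add_lt_of_lt hκ hA hB))))).false
      have k : ∀ C : G, a C.1 x = x → a C.1 y = y → C.1.1.det = -1 := fun C h1 h2 =>
        (dt C.1).resolve_left fun h => C.2.1 (det3 (hΓ _ C.1.2) (one_mem _) hxy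
          (by simpa using congrArg Subtype.val h1) (by simpa using congrArg Subtype.val h2)
          (by simpa using h))
      congr 1
      exact Subtype.ext (Subtype.ext (det3 (hΓ _ A.1.2) (hΓ _ B.1.2) hxy
        (congrArg Subtype.val (x1.1.trans x1.2.symm)) (congrArg Subtype.val (y1.1.trans y1.2.symm))
        ((k A x1.1 y1.1).trans (k B x1.2 y1.2).symm))))
  let e : Set W → S → Fin (k + 2) := fun T x =>
    if x ∈ W then (if ∃ z ∈ T, w (.inr z) = x then 1 else 0) else c x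
  let col : Set W → S → Fin (k + 2) := fun T x =>
    if h : ∃ A, w (.inl A) = x then (if e T (a h.choose.1 x) = 0 then 1 else 0) else e T x
  have c1 : ∀ T, ∀ x ∉ W, col T x = c x := fun T x hx => by
    simp only [col, e, if_neg hx]
    exact dif_neg fun ⟨A, h⟩ => hx (h ▸ (w1 (.inl A)).1)
  have c2 : ∀ T A, col T (a A.1 (w (.inl A))) ≠ col T (w (.inl A)) := fun T A => by
    have h : ∃ B, w (.inl B) = w (.inl A) := ⟨A, rfl⟩
    have h1 : h.choose = A := by_contra fun hn => (w2 _ _ (by simpa using hn)).1 h.choose_spec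
    have h2 : ¬ ∃ B, w (.inl B) = a A.1 (w (.inl A)) := fun ⟨B, hB⟩ => by
      by_cases e : B = A
      · exact (w1 (.inl A)).2 (by rw [← hB, e])
      · exact (w2 _ (.inl A) (by simpa using e)).2 hB
    simp only [col, dif_pos h, dif_neg h2, h1]
    split_ifs with h
    · simp [h]
    · exact h
  have c3 : ∀ T z, col T (w (.inr z)) = 1 ↔ z ∈ T := fun T z => by
    have h1 : ¬ ∃ B, w (.inl B) = w (.inr z) := fun ⟨B, hB⟩ => (w2 _ _ (by simp)).1 hB
    have h2 : w (.inr z) ∈ W := w1 (.inr z)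
    simp only [col, e, dif_neg h1, if_pos h2, ite_eq_left_iff, Fin.zero_eq_one_iff]
    simp only [imp_false, not_not, show ¬ k + 2 = 1 by omega]
    exact ⟨fun ⟨y, h, e⟩ => (by_contra fun hn => (w2 _ _ (by simpa using hn)).1 e : y = z) ▸ h,
      fun h => ⟨z, h, rfl⟩⟩
  by_contra hn
  have : ∀ T, ∃ A : Γ, {w ∈ W | a A w ∈ W}.Finite ∧ ∀ x, col T (a A x) = col T x := fun T => by
    by_contra h
    refine hn ⟨col T, c1 T, fun A hA h1 => by_contra fun h2 => h ⟨⟨A, hA⟩, ?_, fun x => h1 _ _ rfl⟩⟩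
    exact by_contra fun h3 => c2 T ⟨⟨A, hA⟩, h2, h3⟩ (h1 _ _ rfl)
  choose A h1 h2 using this
  refine h.not_ge ?_
  rw [← mk_set]
  refine (mk_le_of_injective (f := fun T => ((A T).1, ((h1 T).toFinset.filter (col T · = 1))))
    fun T T' e => ?_).trans ?_
  · simp only [Prod.mk.injEq] at e
    have e1 : A T = A T' := Subtype.ext e.1
    ext z
    rw [← c3, ← c3]
    by_cases hz : a (A T) (w (.inr z)) ∈ W
    · have h2 : w (.inr z) ∈ W := w1 (.inr z)
      simpa [h2, hz, ← e1] using Finset.ext_iff.1 e.2 (w (.inr z))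
    · rw [← h2 T, ← h2 T', ← e1, c1 _ _ hz, c1 _ _ hz]
  · have : Infinite S := infinite_iff.2 (card_S ▸ aleph0_le_continuum)
    simp [card_S, Matrix, mk_real, Iff.c3]

lemma fails {Γ : Set Mat} (hΓ : ∀ A ∈ specialOrthogonalGroup (Fin 3) ℝ, A ∈ Γ) {W : Set S}
    (h : 2 ^ #W ≤ 𝔠) {k : ℕ} : ∃ c : S → Fin (k + 2), ∀ c' : S → Fin (k + 2),
      (∀ x ∉ W, c' x = c x) → ¬ Dist Γ c' := by
  classical
  have hW : #W < 𝔠 := (cantor _).trans_le h
  obtain ⟨v, hv, gen⟩ := generic ({0, 1} ∪ range fun p : W × Fin 3 => p.1.1.1 p.2)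
    ((mk_union_le _ _).trans_lt (add_lt_of_lt aleph0_le_continuum
      ((toFinite _).lt_aleph0.trans aleph0_lt_continuum) (mk_range_le.trans_lt (by
        simpa using mul_lt_of_lt aleph0_le_continuum hW (nat_lt_continuum 3)))))
  obtain ⟨σ, hσ⟩ : ∃ σ : ℝ → W → Fin (k + 2), Function.Surjective σ := by
    obtain ⟨e⟩ : #(W → Fin (k + 2)) ≤ #ℝ := by
      rw [mk_real, ← power_def]
      rcases le_total #W ℵ₀ with h1 | h1
      · exact (power_le_power_left (by simp) h1).trans ((power_le_power_right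
          ((lt_aleph0_of_finite _).le.trans aleph0_le_continuum)).trans continuum_power_aleph0.le)
      · rw [mk_fin, nat_power_eq h1 (by omega)]; exact h
    exact ⟨_, Function.invFun_surjective e.injective⟩
  let g : ℝ → S → S := fun r x => ⟨half (v r) *ᵥ x.1,
    sph (mem_specialOrthogonalGroup_iff.1 (half_mem (hv r)).1).1 x⟩
  have hg : ∀ (l : List ℝ) (x : S), (l.foldr g x).1 = l.foldr (fun r y => half (v r) *ᵥ y) x.1 := by
    intro l x
    induction l with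
    | nil => rfl
    | cons r l ih => simp only [List.foldr_cons, g, ih]
  obtain ⟨c, hc⟩ := free_col g (fun r x => Subtype.ext (by
      simp only [g, mulVec_mulVec, (half_mem (hv r)).2, one_mulVec])) W
    (fun l h1 h2 w hw h => gen l h1 h2 w.1 _ (fun e => by have := w.2; rw [e] at this; simp at this)
      (fun i => Or.inr ⟨(⟨w, hw⟩, i), rfl⟩) (fun i => Or.inr ⟨(⟨_, h⟩, i), rfl⟩) (hg l w).symm)
    (fun r x => if h : x ∈ W then σ r ⟨x, h⟩ else 0) 0
  refine ⟨c, fun c' h1 h2 => ?_⟩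
  obtain ⟨r, hr⟩ := hσ fun x => c' x
  have e : ∀ x, (if x ∈ W then (if h : x ∈ W then σ r ⟨x, h⟩ else 0) else c x) = c' x := fun x => by
    by_cases hx : x ∈ W <;> simp [hx, hr, h1]
  have := h2 _ (hΓ _ (half_mem (hv r)).1) fun x y hxy => by
    rw [← e, ← e, ← hc r x, show y = g r x from Subtype.ext hxy.symm]
  exact gen [r] (by simp) (by simp) ![1, 0, 0] ![1, 0, 0] (by simp) (fun i => by fin_cases i <;> simp)
    (fun i => by fin_cases i <;> simp) (by simp only [List.foldr, this, one_mulVec])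

lemma basis {W : Set S} (h : ∀ i, ⟨Pi.single i 1, by simp⟩ ∈ W) (Γ : Set Mat) : TrivStab Γ W :=
  fun A _ hA => by
    ext i j
    simpa [one_apply, Pi.single_apply] using congrFun (hA _ (h j)) i

lemma main {Γ : Set Mat} (h1 : ∀ A ∈ Γ, A ∈ orthogonalGroup (Fin 3) ℝ)
    (h2 : ∀ A ∈ specialOrthogonalGroup (Fin 3) ℝ, A ∈ Γ) :
    (∀ W, TrivStab Γ W → (P Γ W ↔ 𝔠 < 2 ^ #W)) ∧
    ((∃ W : Set S, ¬ W.Countable ∧ TrivStab Γ W ∧ ¬ P Γ W) ↔ (2 : Cardinal.{0}) ^ ℵ₁ = 𝔠) := by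
  classical
  obtain ⟨k, hk⟩ : ∃ k, D Γ = k + 2 := by
    obtain ⟨c, -, hc⟩ := holds (k := 0) h1 (basis (W := univ) (fun _ => trivial) Γ)
      (by rw [mk_univ, card_S]; exact cantor _) 0
    obtain ⟨d, hd⟩ := Nat.sInf_mem (s := {k | ∃ c : S → Fin k, Dist Γ c}) ⟨_, c, hc⟩
    refine ⟨D Γ - 2, (Nat.sub_add_cancel (not_lt.1 fun hlt => ?_)).symm⟩
    have := hd _ (h2 _ (half_mem (v := ![1, 0, 0]) (by simp)).1) fun x y _ =>
      Fin.ext (by have := (d x).2; have := (d y).2; unfold D at hlt; omega)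
    have := congrFun (congrFun this 1) 1
    norm_num [half, vecMulVec_apply] at this
  have H : ∀ W, TrivStab Γ W → (P Γ W ↔ 𝔠 < 2 ^ #W) := fun W hW => by
    unfold P
    rw [hk]
    refine ⟨fun h => lt_of_not_ge fun hn => ?_, fun h c => ?_⟩
    · obtain ⟨c, hc⟩ := fails (k := k) h2 hn
      obtain ⟨c', a, b⟩ := h fun x => c x
      exact hc c' (fun x hx => a ⟨x, hx⟩) b
    · obtain ⟨c', a, b⟩ := holds h1 hW h fun x => if hx : x ∈ W then 0 else c ⟨x, hx⟩
      exact ⟨c', fun x => by rw [a x x.2, dif_neg x.2], b⟩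
  refine ⟨H, fun ⟨W, a, b, c⟩ => le_antisymm ?_ ?_, fun h => ?_⟩
  · exact (power_le_power_left two_ne_zero (aleph_one_le_iff.2 (not_le.1
      (le_aleph0_iff_set_countable.not.2 a)))).trans (not_lt.1 ((H W b).not.1 c))
  · exact two_power_aleph0.ge.trans (power_le_power_left two_ne_zero aleph0_lt_aleph_one.le)
  · obtain ⟨T, hT⟩ := le_mk_iff_exists_set.1 (card_S ▸ aleph_one_le_continuum : ℵ₁ ≤ #S)
    let W := T ∪ range fun i : Fin 3 => (⟨Pi.single i 1, by simp⟩ : S)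
    have hW := basis (W := W) (fun i => Or.inr ⟨i, rfl⟩) Γ
    refine ⟨W, fun hc => ?_, hW, (H W hW).not.2 (not_lt.2 (h ▸ power_le_power_left two_ne_zero ?_))⟩
    · exact aleph0_lt_aleph_one.not_ge
        (hT ▸ le_aleph0_iff_set_countable.2 (hc.mono subset_union_left))
    · exact (mk_union_le _ _).trans (add_le_of_le aleph0_lt_aleph_one.le hT.le
        ((finite_range _).lt_aleph0.trans aleph0_lt_aleph_one).le)

theorem result : ∀ Γ ∈ ({↑(orthogonalGroup (Fin 3) ℝ), ↑(specialOrthogonalGroup (Fin 3) ℝ)} :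
    Set (Set Mat)), (∀ W, TrivStab Γ W → (P Γ W ↔ 𝔠 < 2 ^ #W)) ∧
    ((∃ W : Set S, ¬ W.Countable ∧ TrivStab Γ W ∧ ¬ P Γ W) ↔ (2 : Cardinal.{0}) ^ ℵ₁ = 𝔠) := by
  rintro _ (rfl | rfl)
  · exact main (fun _ h => h) fun _ h => (mem_specialOrthogonalGroup_iff.1 h).1
  · exact main (fun _ h => (mem_specialOrthogonalGroup_iff.1 h).1) fun _ h => h

end Pool.Agent.Results.MP_0be93d_co.Iff
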